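import Pool.Agent.H51.OW.Final2

/-!
Malle's conjecture (question Q1): the asymptotic formula for every nilpotent transitive group, and more generally for transitive groups `G`, not
necessarily nilpotent or solvable, such that the subgroup `T` generated by the elements of least index is in a term of the upper central series of `G`
and some `G / Z_j(G)` is trivial, `S_3` or `A_4`, or such that `T` has trivial intersection with a term of the lower central series of `G` and the
elements outside `T` have large index.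
The definitions used in the statement are in `Pool/Agent/H38/ML/Spec.lean`.
-/

open H38.ML.Spec

theorem Pool.Agent.Results.MP_b39724_nt.HypercentralAsymptotic.result
    (n : ℕ) (hn : 2 ≤ n) (G : Subgroup (Equiv.Perm (Fin n)))
    (hG : MulAction.IsPretransitive G (Fin n)) (T : Subgroup G)
    (hT : T = Subgroup.closure {h : G | h ≠ 1 ∧ ind (h : Equiv.Perm (Fin n)) = indG G})
    (hQ : (∃ k : ℕ, T ≤ Subgroup.upperCentralSeries G k) ∧
        (∃ j : ℕ, Subgroup.upperCentralSeries G j = ⊤ ∨
          Nonempty (G ⧸ Subgroup.upperCentralSeries G j ≃* Equiv.Perm (Fin 3)) ∨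
          Nonempty (G ⧸ Subgroup.upperCentralSeries G j ≃* alternatingGroup (Fin 4))) ∨
      (∃ k : ℕ, T ⊓ (⊤ : Subgroup G).lowerCentralSeries k = ⊥) ∧
        ∃ (j : ℕ) (U : Subgroup G), T ≤ U.normalCore ∧
          U.normalCore ≤ Subgroup.upperCentralSeries G j ∧ ∀ g : G, g ∉ T →
            U.index * (U.index - 1) * indG G < 2 * ind (g : Equiv.Perm (Fin n))) :
    ∃ m : ℕ, 0 < m ∧ ∃ K₀ : IntermediateField ℚ (AlgebraicClosure ℚ), NumberField K₀ ∧
      ∀ K : IntermediateField ℚ (AlgebraicClosure ℚ), ∀ _ : NumberField K,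
      (K₀ ≤ K ∨ (∃ k : ℕ, T ⊓ (⊤ : Subgroup G).lowerCentralSeries k = ⊥) ∧
        (∃ z : K, IsPrimitiveRoot z m) ∧ IsGaloisGroup K (AlgebraicClosure ℚ) G) →
        (∀ B : ℝ, nK K (AlgebraicClosure ℚ) G B ≠ ⊤) ∧
        ∃ C : ℝ, 0 < C ∧ Filter.Tendsto
          (fun B : ℝ => ((nK K (AlgebraicClosure ℚ) G B).toNat : ℝ) /
            (B ^ (1 / (indG G : ℝ)) * Real.log B ^ (betaAll K (AlgebraicClosure ℚ) G - 1)))
          Filter.atTop (nhds C) :=
  H51.OW.asy2x n hn G hG T hT hQ
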