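import Pool.Agent.H51.K4.Fin

/-!
Malle's conjecture (question Q1): lower bounds for transitive groups `G`, not necessarily nilpotent or solvable, obtained from a set `C` of
elements of least index, closed under conjugation and under the powers `x ↦ x ^ j`, `j` prime to the order of `x` (`Part G C`). The bound is
`n_K(G,B) ≥ c B^(1/ind(G)) (log B)^(b-1)`, `b` the number of `K`-conjugacy classes in `C`, for all sufficiently large number fields `K`
(`LowC G C`). If `C` consists of all elements of least index (`Lst G`), this is exactly the conjectured order of magnitude (`betaC` is then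
`betaAll`); if `C` is one conjugacy class together with its powers it still has the conjectured power of `B`. With `T` the subgroup generated by `C` it is proved if
* `T` is solvable and the order of `G` is not divisible by `q ^ 3` for the prime factors `q` of the order of `T` (for example: `G` is
  solvable and has cube-free order);
* `T` lies in a term of the upper central series of `G`;
* for some prime `p` the elements of `C` have order dividing `p`, and the image of `T` in `G / N` lies in a term of the upper central series of
  `G / N`, `N` an abelian normal subgroup of `G` of order prime to `p` and to the order of `G / C_G(N)` (`HypN p C N`);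
* the derived group of `T` is abelian, of order prime to that of `G / C_G(T')` and to the orders of the elements of `C` outside of it;
* `(G, C)` is in the class `MC`, the least class of pairs which is closed under extensions by certain abelian normal subgroups with a
  supplement and contains the pairs in the classes `Two` (the derived group of `T` is contained in an abelian normal subgroup with a
  complement and coprime action) and `LC p` (local condition at a prime `p`, the order of all elements of `C`);
* `T` is solvable, the elements of `C` have order dividing a prime `p`, the `p`-subgroups of `T` are abelian, and for every prime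
  `q` which divides the order of the derived group of `T` the `q`-subgroups of `G` are abelian (for example: `G` is solvable with abelian
  Sylow subgroups, and all elements of `C` have the same order);
* `G` is a wreath product `G₁ ≀ H` with an arbitrary transitive `H`, and `C` consists of the elements which act as an element of `C₁` on one
  block and trivially on the others, `C₁` a set of elements of least index of `G₁` which generates a subgroup of a term of the upper central
  series of `G₁`, or satisfies `HypN p C₁ N` for some `N`, or is in the class `SC p`.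
Moreover the lower bound holds over all fields which contain enough roots of unity and have `G` as a Galois group if `T` meets some term of
the lower central series of `G` trivially.
The definitions used in the statement are in `Pool/Agent/H38/ML/Spec.lean`, `Pool/Agent/H88/LB/Spec.lean` and
`Pool/Agent/H51/K4/Spec.lean`.
-/

open H38.ML.Spec H88.LB

theorem Pool.Agent.Results.MP_b39724_nt.LowerBound.result
    (n : ℕ) (hn : 2 ≤ n) (G : Subgroup (Equiv.Perm (Fin n)))
    (hG : MulAction.IsPretransitive G (Fin n)) :
    (H51.K4.Part G (Lst G) ∧ ∀ K : IntermediateField ℚ (AlgebraicClosure ℚ),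
      H51.K4.betaC K G (Lst G) = betaAll K (AlgebraicClosure ℚ) G) ∧
    (∀ C : Set G, H51.K4.Part G C →
      (Group.IsSolvable (Subgroup.closure C) →
        (∀ q : ℕ, q.Prime → q ∣ Nat.card (Subgroup.closure C) → ¬ q ^ 3 ∣ Nat.card G) → H51.K4.LowC G C) ∧
      ((∃ j : ℕ, Subgroup.closure C ≤ Subgroup.upperCentralSeries G j) → H51.K4.LowC G C) ∧
      (∀ p : ℕ, p.Prime → ∀ (N : Subgroup G) (_ : N.Normal), H51.K4.HypN p C N → H51.K4.LowC G C) ∧
      ((∀ x ∈ ⁅Subgroup.closure C, Subgroup.closure C⁆, ∀ y ∈ ⁅Subgroup.closure C, Subgroup.closure C⁆,
          x * y = y * x) →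
        Nat.Coprime (Nat.card (⁅Subgroup.closure C, Subgroup.closure C⁆ : Subgroup G))
          (Subgroup.centralizer ((⁅Subgroup.closure C, Subgroup.closure C⁆ : Subgroup G) : Set G)).index →
        (∀ x ∈ C, x ∈ ⁅Subgroup.closure C, Subgroup.closure C⁆ ∨
          Nat.Coprime (orderOf x) (Nat.card (⁅Subgroup.closure C, Subgroup.closure C⁆ : Subgroup G))) →
        H51.K4.LowC G C) ∧
      (H51.K4.MC C → H51.K4.LowC G C) ∧
      (∀ p : ℕ, p.Prime → (∀ x ∈ C, x ^ p = 1) →
        Group.IsSolvable (Subgroup.closure C) →
        (∀ Q : Subgroup G, Q ≤ Subgroup.closure C → IsPGroup p Q → IsMulCommutative Q) →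
        (∀ q : ℕ, q.Prime →
          q ∣ Nat.card (⁅Subgroup.closure C, Subgroup.closure C⁆ : Subgroup G) →
          ∀ Q : Subgroup G, IsPGroup q Q → IsMulCommutative Q) → H51.K4.LowC G C) ∧
      ((∃ j : ℕ, Subgroup.closure C ⊓ (⊤ : Subgroup G).lowerCentralSeries j = ⊥) →
        ∃ m : ℕ, 0 < m ∧ ∀ K : IntermediateField ℚ (AlgebraicClosure ℚ), ∀ _ : NumberField K,
          (∃ z : K, IsPrimitiveRoot z m) → IsGaloisGroup K (AlgebraicClosure ℚ) G → H51.K4.LowKC K G C)) ∧
    (∀ (m k : ℕ) (_ : 2 ≤ m) (_ : 0 < k) (e : Fin m × Fin k ≃ Fin n)
      (G₁ : Subgroup (Equiv.Perm (Fin m))) (_ : MulAction.IsPretransitive G₁ (Fin m))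
      (H : Subgroup (Equiv.Perm (Fin k))) (_ : MulAction.IsPretransitive H (Fin k))
      (_ : IsWreath e G₁ H G),
      H51.K4.wrC e G₁ (Lst G₁) G = Lst G ∧
      ∀ C₁ : Set G₁, H51.K4.Part G₁ C₁ →
        ((∃ j : ℕ, Subgroup.closure C₁ ≤ Subgroup.upperCentralSeries G₁ j) ∨
          ∃ p : ℕ, p.Prime ∧ ((∃ (N : Subgroup G₁) (_ : N.Normal), H51.K4.HypN p C₁ N) ∨
            (∀ x ∈ C₁, x ^ p = 1) ∧ H51.K4.SC p (Subgroup.closure C₁) C₁)) →
        H51.K4.Part G (H51.K4.wrC e G₁ C₁ G) ∧ H51.K4.LowC G (H51.K4.wrC e G₁ C₁ G)) :=
  H51.K4.stg n hn G hG
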