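import Pool.Agent.H48.A4.All
import Pool.Agent.H67.AT.Main

/-!
Malle's conjecture (question Q1) for all transitive groups isomorphic to `A_4` (degrees 4, 6 and 12), over
every number field (`K₀ = ℚ`), and, over all number fields which contain a suitable one, for all
transitive groups, not nilpotent, with a normal Klein four subgroup `V` which contains the elements of
least index and has a nilpotent quotient `G / V`. The definitions used in the statement are in
`Pool/Agent/H38/ML/Spec.lean`.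
-/

open H38.ML.Spec

theorem Pool.Agent.Results.MP_b39724_nt.MalleA4.result :
    (∀ n : ℕ, 2 ≤ n → ∀ G : Subgroup (Equiv.Perm (Fin n)),
      MulAction.IsPretransitive G (Fin n) →
      (Nonempty (G ≃* alternatingGroup (Fin 4)) ∨
        (¬ Group.IsNilpotent G ∧ ∃ (V : Subgroup G) (_ : V.Normal), Nat.card V = 4 ∧
          (∀ x ∈ V, x ^ 2 = 1) ∧ Group.IsNilpotent (G ⧸ V) ∧
          ∀ g : G, g ≠ 1 → ind (g : Equiv.Perm (Fin n)) = indG G → g ∈ V)) →
      ∃ K₀ : IntermediateField ℚ (AlgebraicClosure ℚ), NumberField K₀ ∧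
        (Nonempty (G ≃* alternatingGroup (Fin 4)) → K₀ = ⊥) ∧
        ∀ K : IntermediateField ℚ (AlgebraicClosure ℚ), K₀ ≤ K → ∀ _ : NumberField K,
          (∀ B : ℝ, nK K (AlgebraicClosure ℚ) G B ≠ ⊤) ∧
          ∃ C : ℝ, 0 < C ∧ Filter.Tendsto
            (fun B : ℝ => ((nK K (AlgebraicClosure ℚ) G B).toNat : ℝ) /
              (B ^ (1 / (indG G : ℝ)) * Real.log B ^ (betaAll K (AlgebraicClosure ℚ) G - 1)))
            Filter.atTop (nhds C)) ∧
    indG (alternatingGroup (Fin 4)) = 2 ∧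
    ∀ (K : IntermediateField ℚ (AlgebraicClosure ℚ)) (_ : NumberField K),
      ((∃ ω : K, IsPrimitiveRoot ω 3) →
        betaAll K (AlgebraicClosure ℚ) (alternatingGroup (Fin 4)) = 3) ∧
      ((¬ ∃ ω : K, IsPrimitiveRoot ω 3) →
        betaAll K (AlgebraicClosure ℚ) (alternatingGroup (Fin 4)) = 2) := by
  have hQ : NumberField (⊥ : IntermediateField ℚ (AlgebraicClosure ℚ)) :=
    NumberField.of_module_finite ℚ _
  refine ⟨fun n hn G hG h => ?_, (H67.AQ.a4_every ⊥ hQ).1, fun K hK => ?_⟩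
  · by_cases hA : Nonempty (G ≃* alternatingGroup (Fin 4))
    · exact ⟨⊥, hQ, fun _ => rfl, fun K _ hK => H67.AT.a4_tr n G hG hA K hK⟩
    · obtain ⟨K₀, hK₀, h1⟩ := H48.A4.a4_all n hn G hG h
      exact ⟨K₀, hK₀, fun h2 => absurd h2 hA, h1⟩
  · obtain ⟨-, h1, h2, -⟩ := H67.AQ.a4_every K hK
    exact ⟨h1, h2⟩
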