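import Pool.Agent.H67.SQ.Main

/-!
Malle's conjecture (question Q1) for the symmetric group `S_4` in its transitive representation of degree 6 on the
2-element subsets of `{0, 1, 2, 3}`, over every number field. The definitions used in the statement are in
`Pool/Agent/H38/ML/Spec.lean`.
-/

open H38.ML.Spec

theorem Pool.Agent.Results.MP_b39724_nt.MalleS4Sextic.result
    (K : IntermediateField ℚ (AlgebraicClosure ℚ)) (_ : NumberField K)
    (e : Fin 6 ≃ {s : Finset (Fin 4) // s.card = 2})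
    (G : Subgroup (Equiv.Perm (Fin 6)))
    (hG : ∀ p : Equiv.Perm (Fin 6), p ∈ G ↔ ∃ g : Equiv.Perm (Fin 4), ∀ i : Fin 6,
      (e (p i) : Finset (Fin 4)) = (e i : Finset (Fin 4)).map g.toEmbedding) :
    indG G = 2 ∧ betaAll K (AlgebraicClosure ℚ) G = 2 ∧
    (∀ B : ℝ, nK K (AlgebraicClosure ℚ) G B ≠ ⊤) ∧
    ∃ C : ℝ, 0 < C ∧ Filter.Tendsto
      (fun B : ℝ => ((nK K (AlgebraicClosure ℚ) G B).toNat : ℝ) /
        (B ^ (1 / (2 : ℝ)) * Real.log B)) Filter.atTop (nhds C) := by
  have h : G = H38.SE.G6 e := Subgroup.ext fun p => (hG p).trans (H38.SE.g6_iff e p).symm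
  rw [h]
  exact H67.SQ.sq_main K e
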